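import Pool.Agent.Helper13.RR.B2
import Pool.Agent.Helper13.RR.DC
import Pool.Agent.Helper13.TD.DXR

/-!
# Bounded data of the members of a linear system
-/

set_option linter.unusedVariables false

universe u

namespace Pool.Agent.RRW

open Polynomial Pool.Agent.Helper91.Sect Pool.Agent.Helper37.UL VC FF IntermediateField
open Pool.Agent.TD

/-- **Bounded data of the members of a linear system on a curve.** -/
theorem exists_dataW {F k C : Type u} [Field F] [CharZero F] [Field k] [Algebra F k] [Field C]
    [Algebra k C] [IsAlgClosure k C] [Algebra F C] [IsScalarTower F k C]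
    (hF : ∃ S : Finset F, Subfield.closure (S : Set F) = ⊤)
    {T : k} (hT : Transcendental F T) {ϑ : k} (hϑ : IsAlgebraic (IntermediateField.adjoin F {T}) ϑ)
    (htop : IntermediateField.adjoin F {T, ϑ} = ⊤)
    (κ : Subfield C) (hκ : ∀ c : C, c ∈ κ ↔ IsAlgebraic F c)
    {m : ℕ} {w : Fin (m + 1) → k} (hw : w 0 ≠ 0) (d p : ℕ) (hp : p.Prime) (hd : 3 ≤ d) :
    ∃ (D B M : ℕ) (Ψ : MvPolynomial (Fin (d + 1) × Fin (m + 1)) F)
      (Δ : Fin (M + 1) → MvPolynomial (Fin (d + 1) × Fin (m + 1)) F), 0 < B ∧ Ψ ≠ 0 ∧
      ∀ (a : Fin (d + 1) × Fin (m + 1) → F), MvPolynomial.eval a Ψ ≠ 0 →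
      (∃ l, MvPolynomial.eval a (Δ l) ≠ 0) ∧
      ∀ {θ : Fin d → C} {z : Fin d → Fin d → C} {α : C}
      (hlev : Lev (algebraMap k C).fieldRange p
        (fun i => algebraMap k C (∑ l, algebraMap F k (a (i, l)) * w l)) θ z α)
      (hin : ∀ V : ValuationSubring C,
        HasPlaces (IsLocalRing.ResidueField (V.comap (algebraMap k C))) →
        ((p : ℕ) : IsLocalRing.ResidueField (V.comap (algebraMap k C))) ≠ 0 →
        GoodAt V (fun i => algebraMap k C (∑ l, algebraMap F k (a (i, l)) * w l)) θ →
        ∀ σ : C ≃+* C, Inert (algebraMap k C).fieldRange V σ →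
          ∀ i j, i ≠ j → σ (z i j) = z i j)
      (i j : Fin d) (hij : i ≠ j),
      DataR κ (Subfield.closure ((κ : Set C) ∪ {algebraMap k C T})) (algebraMap k C T) D 0 p B
        (fun (_ : Fin (0 + 1)) (l : Fin (M + 1)) => algebraMap F C (MvPolynomial.eval a (Δ l)))
        ![algebraMap k C ϑ, θ i, θ j] (z i j) := by
  have hk0 : CharZero k := charZero_of_injective_algebraMap (algebraMap F k).injective
  have hCa : IsAlgClosed C := IsAlgClosure.isAlgClosed k
  have hFκ : ∀ c : F, algebraMap F C c ∈ κ := fun c => (hκ _).2 (isAlgebraic_algebraMap c)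
  have htr := kappa_transc_one hκ hT
  let φ : F →+* κ := (algebraMap F C).codRestrict κ.toSubring hFκ
  have hφC : (algebraMap κ C).comp φ = algebraMap F C := rfl
  -- all elements of `k` are algebraic over `F[T]`
  have hfin : FiniteDimensional (IntermediateField.adjoin F {T}) k := by
    have h1 : IntermediateField.adjoin (IntermediateField.adjoin F {T}) {ϑ} = ⊤ := by
      have h2 := IntermediateField.adjoin_adjoin_left F ({T} : Set k) {ϑ}
      apply IntermediateField.restrictScalars_injective F
      rw [h2, IntermediateField.restrictScalars_top, ← htop]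
      congr 1
    have h2 := IntermediateField.adjoin.finiteDimensional hϑ.isIntegral
    rw [h1] at h2
    exact Module.Finite.equiv (IntermediateField.topEquiv
      (F := IntermediateField.adjoin F {T}) (E := k)).toLinearEquiv
  have hkrel : ∀ x : k, ∃ b : F[X][X], b ≠ 0 ∧
      eval₂ (aeval T : F[X] →ₐ[F] k).toRingHom x b = 0 := fun x =>
    exists_poly_rel hT (Algebra.IsAlgebraic.isAlgebraic x)
  -- values
  have hval : ∀ q : F[X], algebraMap k C (aeval T q) = aeval (algebraMap k C T) (q.map φ) := by
    intro q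
    rw [aeval_def, aeval_def, eval₂_map, hom_eval₂, hφC, ← IsScalarTower.algebraMap_eq]
  have hvalhom : (aeval (algebraMap k C T) : κ[X] →ₐ[κ] C).toRingHom.comp (mapRingHom φ) =
      (algebraMap k C).comp (aeval T : F[X] →ₐ[F] k).toRingHom := by
    refine RingHom.ext fun q => ?_
    exact (hval q).symm
  have hinj : Function.Injective (mapRingHom φ) := Polynomial.map_injective _ φ.injective
  -- the relation of `ϑ`
  obtain ⟨b, hb, hbϑ⟩ := hkrel ϑ
  have hb' : b.map (mapRingHom φ) ≠ 0 := (Polynomial.map_ne_zero_iff hinj).2 hb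
  have hbϑ' : eval₂ (aeval (algebraMap k C T) : κ[X] →ₐ[κ] C).toRingHom (algebraMap k C ϑ)
      (b.map (mapRingHom φ)) = 0 := by
    rw [eval₂_map, hvalhom]
    have h2 := congrArg (algebraMap k C) hbϑ
    rw [hom_eval₂, map_zero] at h2
    exact h2
  obtain ⟨R, hR, hRθ⟩ := exists_rel_roots (C := C) (d := d) hkrel hw
  obtain ⟨Δ, hΔ, hΔgood⟩ := exists_bad (C := C) hkrel hw (show 2 ≤ d by omega)
  let m' := (∑ i ∈ b.support, (b.coeff i).natDegree) + ∑ i ∈ R.support, (R.coeff i).natDegree
  have hbm : ∀ i, ((b.map (mapRingHom φ)).coeff i).natDegree ≤ m' := by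
    intro i
    rw [coeff_map]
    refine (natDegree_map_le).trans ?_
    by_cases hi : i ∈ b.support
    · have h1 := Finset.single_le_sum (f := fun i => (b.coeff i).natDegree)
        (fun i _ => Nat.zero_le _) hi
      exact h1.trans (Nat.le_add_right _ _)
    · rw [notMem_support_iff.1 hi, natDegree_zero]
      exact Nat.zero_le _
  have hRm : ∀ i, (R.coeff i).natDegree ≤ m' := by
    intro i
    by_cases hi : i ∈ R.support
    · have h1 := Finset.single_le_sum (f := fun i => (R.coeff i).natDegree)
        (fun i _ => Nat.zero_le _) hi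
      exact h1.trans (Nat.le_add_left _ _)
    · rw [notMem_support_iff.1 hi, natDegree_zero]
      exact Nat.zero_le _
  obtain ⟨B, hB0, hB⟩ := data_coreW.{u} (d + b.natDegree + R.natDegree) m' Δ.natDegree p hp
    (by omega)
  refine ⟨d + b.natDegree + R.natDegree, B, Δ.natDegree,
    R.leadingCoeff.leadingCoeff * Δ.leadingCoeff, fun l => Δ.coeff l, hB0,
    mul_ne_zero (leadingCoeff_ne_zero.2 (leadingCoeff_ne_zero.2 hR)) (leadingCoeff_ne_zero.2 hΔ),
    ?_⟩
  intro a ha
  rw [map_mul] at ha
  have ha1 := left_ne_zero_of_mul ha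
  have ha2 := right_ne_zero_of_mul ha
  refine ⟨⟨⟨Δ.natDegree, Nat.lt_succ_self _⟩, ha2⟩, ?_⟩
  intro θ z α hlev hin i j hij
  have hk : ∀ x : k, algebraMap k C x ∈
      IntermediateField.adjoin κ {algebraMap k C T, algebraMap k C ϑ} := by
    intro x
    have h1 : (IntermediateField.adjoin F {T, ϑ} : IntermediateField F k).toSubfield ≤
        (IntermediateField.adjoin κ {algebraMap k C T, algebraMap k C ϑ}).toSubfield.comap
          (algebraMap k C) := by
      rw [IntermediateField.adjoin_toSubfield, Subfield.closure_le]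
      rintro x (⟨y, rfl⟩ | hx)
      · change algebraMap k C (algebraMap F k y) ∈
          IntermediateField.adjoin κ {algebraMap k C T, algebraMap k C ϑ}
        rw [← IsScalarTower.algebraMap_apply F k C]
        exact (IntermediateField.adjoin κ {algebraMap k C T, algebraMap k C ϑ}).algebraMap_mem
          ⟨_, hFκ y⟩
      · rcases hx with rfl | hx
        · exact IntermediateField.subset_adjoin κ _ (by simp)
        · rw [Set.mem_singleton_iff.mp hx]
          exact IntermediateField.subset_adjoin κ _ (by simp)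
    rw [htop] at h1
    exact h1 (Subfield.mem_top x)
  -- the relation of the roots
  let f : κ[X][X] := (R.map (mapRingHom (MvPolynomial.eval a))).map (mapRingHom φ)
  have hf0 : f ≠ 0 := by
    refine (Polynomial.map_ne_zero_iff hinj).2 ?_
    intro h0
    apply ha1
    have h1 : (R.leadingCoeff).map (MvPolynomial.eval a) = 0 := by
      have h2 := congrArg (fun Q : F[X][X] => Q.coeff R.natDegree) h0
      simp only [coeff_map, coeff_zero] at h2
      exact h2
    have h2 := congrArg (fun Q : F[X] => Q.coeff R.leadingCoeff.natDegree) h1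
    simp only [coeff_map, coeff_zero] at h2
    exact h2
  have hfD : f.natDegree ≤ d + b.natDegree + R.natDegree := by
    refine (natDegree_map_le).trans ((natDegree_map_le).trans ?_)
    omega
  have hfm : ∀ i, (f.coeff i).natDegree ≤ m' := by
    intro i
    simp only [f]
    rw [coeff_map, coeff_map]
    exact (natDegree_map_le).trans ((natDegree_map_le).trans (hRm i))
  have hfθ : ∀ j, eval₂ (aeval (algebraMap k C T) : κ[X] →ₐ[κ] C).toRingHom (θ j) f = 0 := by
    intro j
    simp only [f]
    rw [eval₂_map, hvalhom]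
    exact hRθ a (hlev.root j)
  -- the bad polynomial
  let bad : κ[X] := (Δ.map (MvPolynomial.eval a)).map φ
  have hbad0 : bad ≠ 0 := by
    refine (Polynomial.map_ne_zero_iff φ.injective).2 ?_
    intro h0
    apply ha2
    have h2 := congrArg (fun Q : F[X] => Q.coeff Δ.natDegree) h0
    simp only [coeff_map, coeff_zero] at h2
    exact h2
  have hbadd : bad.natDegree ≤ Δ.natDegree := (natDegree_map_le).trans (natDegree_map_le)
  have hbadc : (fun (_ : Fin (0 + 1)) (l : Fin (Δ.natDegree + 1)) =>
      algebraMap F C (MvPolynomial.eval a (Δ.coeff l))) =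
      fun (_ : Fin (0 + 1)) (l : Fin (Δ.natDegree + 1)) => ((bad.coeff l : κ) : C) := by
    funext _ l
    simp only [bad, coeff_map]
    rfl
  rw [hbadc]
  refine hB κ (kappa_closed_one k hκ) htr hb' ((natDegree_map_le).trans (by omega)) hbm hbϑ' hk
    hlev hf0 hfD hfm hfθ hbad0 hbadd ?_ ?_ i j hij
  · intro V hκV t₀ ht₀ hbt
    refine hΔgood hκV hFκ ht₀ a ?_ hlev.inj hlev.root
    intro h0
    apply hbt
    apply Subtype.ext
    have h1 : ((bad.eval t₀ : κ) : C) = eval₂ (algebraMap F C) (t₀ : C)
        (Δ.map (MvPolynomial.eval a)) := by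
      simp only [bad]
      rw [eval_map]
      change (algebraMap κ C) (eval₂ φ t₀ _) = _
      rw [hom_eval₂]
      rfl
    rw [h1, h0]
    rfl
  intro V hκV hgood σ hσ
  by_cases hV : V = ⊤
  · -- the trivial valuation ring
    intro i j _
    have h1 := hσ.res (z i j) (by rw [hV]; trivial)
    have h2 : σ (z i j) - z i j = 0 := by
      by_contra hne
      subst hV
      have h3 : (⊤ : ValuationSubring C).valuation (σ (z i j) - z i j)⁻¹ ≤ 1 :=
        ((⊤ : ValuationSubring C).valuation_le_one_iff _).2 (by trivial)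
      rw [map_inv₀] at h3
      have h4 : (⊤ : ValuationSubring C).valuation (σ (z i j) - z i j) ≠ 0 := by simpa using hne
      exact absurd h1 (not_lt.2 ((inv_le_one₀ (zero_lt_iff.2 h4)).1 h3))
    exact sub_eq_zero.1 h2
  · refine hin V ?_ (natCast_residue_ne_zero_one (F := F) (fun c => hκV _ (hFκ c)) hp.ne_zero)
      hgood σ hσ
    have hgal : IsGalois k C := IsAlgClosure.isGalois k C
    obtain ⟨S, hS⟩ := Pool.Agent.LT.resid_fg_gen (k₁ := F) (k := k) (C := C) hF T hfin (W := V) hV
      (fun c => hκV _ (hFκ c))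
    exact hasPlaces_of_closure hS

end Pool.Agent.RRW
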