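import Pool.Agent.Helper10.UL.GoodV

/-!
# The generic polynomial with coefficients in a space of functions
-/

universe u v

namespace Pool.Agent.RRW

open Polynomial UL Pool.Agent.Helper37.UL

section gen

variable {F k : Type u} [Field F] [Field k] [Algebra F k] (T : k) {I : Type v}

/-- the inclusion of `F[A][T]` in `k[A]` -/
noncomputable def phi : (MvPolynomial I F)[X] →+* MvPolynomial I k :=
  eval₂RingHom (MvPolynomial.map (algebraMap F k)) (MvPolynomial.C T)

/-- values at `a` -/
noncomputable def evk (a : I → F) : MvPolynomial I k →+* k :=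
  MvPolynomial.eval fun i => algebraMap F k (a i)

lemma evk_map (a : I → F) (P : MvPolynomial I F) :
    evk (k := k) a (MvPolynomial.map (algebraMap F k) P) =
      algebraMap F k (MvPolynomial.eval a P) := by
  unfold evk
  rw [MvPolynomial.eval_map, ← MvPolynomial.eval₂_id, MvPolynomial.eval₂_comp_left]
  rfl

lemma evk_phi (a : I → F) (Q : (MvPolynomial I F)[X]) :
    evk a (phi T Q) = aeval T (Q.map (MvPolynomial.eval a)) := by
  unfold phi
  rw [coe_eval₂RingHom, hom_eval₂, aeval_def, eval₂_map]
  have h1 : evk a (MvPolynomial.C T) = T := by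
    unfold evk
    rw [MvPolynomial.eval_C]
  rw [h1]
  congr 1
  refine RingHom.ext fun P => ?_
  exact evk_map a P

variable {T}

theorem isAlgebraic_phi (hk : ∀ x : k, ∃ b : F[X][X], b ≠ 0 ∧
    eval₂ (aeval T : F[X] →ₐ[F] k).toRingHom x b = 0) (x : MvPolynomial I k) :
    ∃ Q : (MvPolynomial I F)[X][X], Q ≠ 0 ∧ eval₂ (phi T) x Q = 0 := by
  let _ : Algebra (MvPolynomial I F)[X] (MvPolynomial I k) := (phi T).toAlgebra
  have h : IsAlgebraic (MvPolynomial I F)[X] x := by
    induction x using MvPolynomial.induction_on with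
    | C a =>
      obtain ⟨b, hb, hb0⟩ := hk a
      have hinj : Function.Injective (mapRingHom (MvPolynomial.C : F →+* MvPolynomial I F)) :=
        Polynomial.map_injective _ (MvPolynomial.C_injective I F)
      refine ⟨b.map (mapRingHom MvPolynomial.C), (Polynomial.map_ne_zero_iff hinj).2 hb, ?_⟩
      rw [aeval_def, eval₂_map]
      have h1 := congrArg (MvPolynomial.C : k →+* MvPolynomial I k) hb0
      rw [hom_eval₂, map_zero] at h1
      rw [← h1]
      congr 1
      refine Polynomial.ringHom_ext (fun c => ?_) ?_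
      · rw [RingHom.comp_apply, RingHom.comp_apply]
        change phi T (Polynomial.map MvPolynomial.C (Polynomial.C c)) = MvPolynomial.C (aeval T (Polynomial.C c))
        rw [map_C, aeval_C]
        unfold phi
        rw [coe_eval₂RingHom, eval₂_C, MvPolynomial.map_C]
      · rw [RingHom.comp_apply, RingHom.comp_apply]
        change phi T (Polynomial.map MvPolynomial.C X) = MvPolynomial.C (aeval T X)
        rw [map_X, aeval_X]
        unfold phi
        rw [coe_eval₂RingHom, eval₂_X]
    | add p q hp hq => exact hp.add hq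
    | mul_X p i hp =>
      refine hp.mul ?_
      have h1 : (MvPolynomial.X i : MvPolynomial I k) =
          algebraMap (MvPolynomial I F)[X] (MvPolynomial I k) (Polynomial.C (MvPolynomial.X i)) := by
        change _ = phi T _
        unfold phi
        rw [coe_eval₂RingHom, eval₂_C, MvPolynomial.map_X]
      rw [h1]
      exact isAlgebraic_algebraMap _
  exact h

theorem exists_dvd_phi (hk : ∀ x : k, ∃ b : F[X][X], b ≠ 0 ∧
    eval₂ (aeval T : F[X] →ₐ[F] k).toRingHom x b = 0) {G : MvPolynomial I k} (hG : G ≠ 0) :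
    ∃ Δ : (MvPolynomial I F)[X], Δ ≠ 0 ∧ G ∣ phi T Δ := by
  let _ : Algebra (MvPolynomial I F)[X] (MvPolynomial I k) := (phi T).toAlgebra
  have h : IsAlgebraic (MvPolynomial I F)[X] G := isAlgebraic_phi hk G
  exact h.exists_nonzero_dvd (mem_nonZeroDivisors_of_ne_zero hG)

theorem exists_dvd_map_phi (hk : ∀ x : k, ∃ b : F[X][X], b ≠ 0 ∧
    eval₂ (aeval T : F[X] →ₐ[F] k).toRingHom x b = 0) {f : (MvPolynomial I k)[X]} (hf : f ≠ 0) :
    ∃ R : (MvPolynomial I F)[X][X], R ≠ 0 ∧ f ∣ R.map (phi T) := by
  let _ : Algebra (MvPolynomial I F)[X] (MvPolynomial I k) := (phi T).toAlgebra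
  have h : Algebra.IsAlgebraic (MvPolynomial I F)[X] (MvPolynomial I k) :=
    ⟨fun x => isAlgebraic_phi hk x⟩
  exact Polynomial.exists_dvd_map_of_isAlgebraic hf

end gen

section generic

variable {F k : Type u} [Field F] [Field k] [Algebra F k] {d m : ℕ}

/-- the generic coefficients -/
noncomputable def genc (w : Fin (m + 1) → k) (i : Fin (d + 1)) :
    MvPolynomial (Fin (d + 1) × Fin (m + 1)) k :=
  ∑ l, MvPolynomial.X (i, l) * MvPolynomial.C (w l)

lemma evk_genc (w : Fin (m + 1) → k) (i : Fin (d + 1)) (a : Fin (d + 1) × Fin (m + 1) → F) :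
    evk a (genc w i) = ∑ l, algebraMap F k (a (i, l)) * w l := by
  unfold evk genc
  rw [map_sum]
  refine Finset.sum_congr rfl fun l _ => ?_
  rw [map_mul, MvPolynomial.eval_X, MvPolynomial.eval_C]

lemma map_spec_genc (w : Fin (m + 1) → k) (a : Fin (d + 1) × Fin (m + 1) → F) :
    (spec (genc w)).map (evk a) = spec fun i : Fin (d + 1) => ∑ l, algebraMap F k (a (i, l)) * w l := by
  rw [spec_map]
  congr 1
  funext i
  exact evk_genc w i a

/-- the resultant of the generic polynomial is not zero -/
theorem RR_genc_ne_zero [CharZero F] {w : Fin (m + 1) → k} (hw : w 0 ≠ 0) (hd : 2 ≤ d) :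
    RR d (spec (genc (d := d) w)) ≠ 0 := by
  classical
  have hk0 : CharZero k := charZero_of_injective_algebraMap (algebraMap F k).injective
  let P : F[X] := ∏ j : Fin d, (X - Polynomial.C ((j : ℕ) : F))
  have hPm : P.Monic := monic_prod_of_monic _ _ fun j _ => monic_X_sub_C _
  have hPd : P.natDegree = d := by
    rw [natDegree_prod_of_monic _ _ fun j _ => monic_X_sub_C _]
    simp only [natDegree_X_sub_C, Finset.sum_const, Finset.card_univ, Fintype.card_fin, smul_eq_mul,
      mul_one]
  let a : Fin (d + 1) × Fin (m + 1) → F := fun x => if x.2 = 0 then P.coeff x.1 else 0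
  have ha : (fun i : Fin (d + 1) => ∑ l, algebraMap F k (a (i, l)) * w l) =
      fun i : Fin (d + 1) => algebraMap F k (P.coeff i) * w 0 := by
    funext i
    rw [Finset.sum_eq_single 0]
    · simp only [a, if_true]
    · intro l _ hl
      simp only [a]
      rw [if_neg hl, map_zero, zero_mul]
    · intro h
      exact absurd (Finset.mem_univ _) h
  have h1 : RR d (spec fun i : Fin (d + 1) => ∑ l, algebraMap F k (a (i, l)) * w l) ≠ 0 := by
    rw [ha]
    refine RR_spec_ne_zero hd ?_ (r := fun j : Fin d => ((j : ℕ) : k)) ?_ ?_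
    · refine mul_ne_zero ?_ hw
      rw [Fin.val_last]
      have h2 := hPm.coeff_natDegree
      rw [hPd] at h2
      rw [h2, map_one]
      exact one_ne_zero
    · intro i j hij
      have h2 : ((i : ℕ) : k) = ((j : ℕ) : k) := hij
      exact Fin.ext (Nat.cast_injective h2)
    · intro j
      have h2 : aeval ((j : ℕ) : k) P = 0 := by
        rw [map_prod]
        refine Finset.prod_eq_zero (Finset.mem_univ j) ?_
        rw [map_sub, aeval_X, aeval_C, map_natCast, sub_self]
      rw [aeval_eq_sum_range' (n := d + 1) (by omega), Finset.sum_range] at h2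
      have h3 : ∑ i : Fin (d + 1), algebraMap F k (P.coeff i) * w 0 * ((j : ℕ) : k) ^ (i : ℕ) =
          w 0 * ∑ i : Fin (d + 1), P.coeff i • ((j : ℕ) : k) ^ (i : ℕ) := by
        rw [Finset.mul_sum]
        refine Finset.sum_congr rfl fun i _ => ?_
        rw [Algebra.smul_def]
        ring
      rw [h3, h2, mul_zero]
  intro h0
  apply h1
  rw [← map_spec_genc, RR_map, h0, map_zero]

theorem spec_genc_ne_zero [CharZero F] {w : Fin (m + 1) → k} (hw : w 0 ≠ 0) :
    spec (genc (d := d) w) ≠ 0 := by
  intro h0
  have h1 : genc (d := d) w (Fin.last d) = 0 := by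
    rw [← coeff_spec (genc (d := d) w) (Fin.last d), h0, coeff_zero]
  have h2 := evk_genc w (Fin.last d) (fun x => if x.2 = 0 then (1 : F) else 0)
  rw [h1, map_zero, Finset.sum_eq_single 0] at h2
  · simp only [if_true, map_one, one_mul] at h2
    exact hw h2.symm
  · intro l _ hl
    simp only
    rw [if_neg hl, map_zero, zero_mul]
  · intro h
    exact absurd (Finset.mem_univ _) h

end generic

end Pool.Agent.RRW
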