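import Pool.Agent.Helper13.RR.B1

/-!
# Good reduction of the members of a linear system
-/

universe u v

namespace Pool.Agent.RRW

open Polynomial UL Pool.Agent.Helper37.UL

section val

variable {C : Type u} [Field C] {κ : Subfield C} {V : ValuationSubring C}

lemma val_const (hκV : ∀ c ∈ κ, c ∈ V) {c : κ} (hc : c ≠ 0) : V.valuation (c : C) = 1 := by
  have hc' : (c : C) ≠ 0 := fun h => hc (Subtype.ext h)
  have h1 : V.valuation (c : C) ≤ 1 := (V.valuation_le_one_iff _).2 (hκV c c.2)
  have h2 : V.valuation (c : C)⁻¹ ≤ 1 := (V.valuation_le_one_iff _).2 (hκV _ (κ.inv_mem c.2))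
  rw [map_inv₀] at h2
  have h3 : V.valuation (c : C) ≠ 0 := (V.valuation.ne_zero_iff).2 hc'
  exact le_antisymm h1 ((inv_le_one₀ (zero_lt_iff.2 h3)).1 h2)

lemma mem_of_near (hκV : ∀ c ∈ κ, c ∈ V) {T' : C} {t₀ : κ} (hT : V.valuation (T' - t₀) < 1) :
    T' ∈ V := by
  have h1 : T' - t₀ ∈ V := (V.valuation_le_one_iff _).1 hT.le
  have h2 := V.add_mem _ _ h1 (hκV t₀ t₀.2)
  rwa [sub_add_cancel] at h2

lemma aeval_mem (hκV : ∀ c ∈ κ, c ∈ V) {T' : C} (hT : T' ∈ V) (q : κ[X]) : aeval T' q ∈ V := by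
  rw [aeval_eq_sum_range]
  refine sum_mem fun i _ => ?_
  rw [Algebra.smul_def]
  exact mul_mem (hκV _ (q.coeff i).2) (pow_mem hT _)

lemma val_aeval (hκV : ∀ c ∈ κ, c ∈ V) {T' : C} {t₀ : κ} (hT : V.valuation (T' - t₀) < 1)
    {q : κ[X]} (hq : q.eval t₀ ≠ 0) : V.valuation (aeval T' q) = 1 := by
  obtain ⟨r, hr⟩ := X_sub_C_dvd_sub_C_eval (a := t₀) (p := q)
  have h1 := congrArg (aeval T') hr
  rw [map_sub, map_mul, map_sub, aeval_X, aeval_C, aeval_C] at h1
  have h2 : V.valuation ((T' - algebraMap κ C t₀) * aeval T' r) < 1 := by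
    rw [map_mul]
    exact mul_lt_one_of_lt_of_le hT
      ((V.valuation_le_one_iff _).2 (aeval_mem hκV (mem_of_near hκV hT) r))
  rw [← h1] at h2
  have h3 : V.valuation (algebraMap κ C (q.eval t₀)) = 1 := val_const hκV hq
  have h4 : aeval T' q = algebraMap κ C (q.eval t₀) +
      (aeval T' q - algebraMap κ C (q.eval t₀)) := by ring
  rw [h4, Valuation.map_add_eq_of_lt_left]
  · exact h3
  · rw [h3]
    exact h2

lemma mem_of_rel (hκV : ∀ c ∈ κ, c ∈ V) {T' : C} {t₀ : κ} (hT : V.valuation (T' - t₀) < 1)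
    {b : κ[X][X]} {x : C} (hx : eval₂ (aeval T' : κ[X] →ₐ[κ] C).toRingHom x b = 0)
    (hb : b.leadingCoeff.eval t₀ ≠ 0) : x ∈ V := by
  by_contra hj
  rw [← V.valuation_le_one_iff, not_le] at hj
  rw [eval₂_eq_sum_range, Finset.sum_range_succ] at hx
  have h2 : V.valuation (∑ i ∈ Finset.range b.natDegree,
      (aeval T' : κ[X] →ₐ[κ] C).toRingHom (b.coeff i) * x ^ i) < V.valuation x ^ b.natDegree := by
    apply Valuation.map_sum_lt
    · exact pow_ne_zero _ (zero_lt_one.trans hj).ne'
    · intro i hi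
      rw [map_mul, map_pow]
      calc V.valuation ((aeval T' : κ[X] →ₐ[κ] C).toRingHom (b.coeff i)) * V.valuation x ^ i
          ≤ 1 * V.valuation x ^ i :=
            mul_le_mul_left ((V.valuation_le_one_iff _).2
              (aeval_mem hκV (mem_of_near hκV hT) _)) _
        _ = V.valuation x ^ i := one_mul _
        _ < V.valuation x ^ b.natDegree := pow_lt_pow_right₀ hj (Finset.mem_range.1 hi)
  rw [add_eq_zero_iff_eq_neg] at hx
  rw [hx, Valuation.map_neg, map_mul, map_pow] at h2
  have h3 : V.valuation ((aeval T' : κ[X] →ₐ[κ] C).toRingHom (b.coeff b.natDegree)) = 1 :=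
    val_aeval hκV hT hb
  rw [h3, one_mul] at h2
  exact lt_irrefl _ h2

end val

/-- Good reduction from the resultant. -/
theorem goodAt_of_RR {C : Type u} [Field C] {V : ValuationSubring C}
    (hK : CharZero (IsLocalRing.ResidueField V)) {d : ℕ} (hd : 2 ≤ d) {c : Fin (d + 1) → C}
    (hc : ∀ i, c i ∈ V) (hRR : V.valuation (RR d (spec c)) = 1) {θ : Fin d → C}
    (hθ : Function.Injective θ) (hroot : ∀ j, ∑ i, c i * θ j ^ (i : ℕ) = 0) : GoodAt V c θ := by
  let K := IsLocalRing.ResidueField V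
  let π : V →+* K := IsLocalRing.residue V
  have hπ0 : ∀ x : V, π x = 0 ↔ V.valuation (x : C) < 1 := by
    intro x
    rw [← V.valuation_lt_one_iff]
    exact IsLocalRing.residue_eq_zero_iff x
  let aV : Fin (d + 1) → V := fun i => ⟨c i, hc i⟩
  have haV : ∀ i, (aV i : C) = c i := fun i => rfl
  let fV : V[X] := spec aV
  have hfV : fV.map π = spec fun i => π (aV i) := spec_map _ _
  have hRR' : RR d (fV.map π) ≠ 0 := by
    rw [RR_map, Ne, hπ0]
    have h1 : ((RR d fV : V) : C) = RR d (spec c) := by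
      change V.subtype (RR d fV) = _
      rw [← RR_map]
      congr 1
      exact spec_map _ _
    rw [h1, hRR]
    exact lt_irrefl _
  obtain ⟨hdeg, hsep⟩ := (RR_ne_zero_iff hd (by rw [hfV]; exact natDegree_spec _)).mp hRR'
  have hlead : V.valuation (aV (Fin.last d) : C) = 1 := by
    have h1 : π (aV (Fin.last d)) ≠ 0 := by
      have h2 := coeff_spec (fun i => π (aV i)) (Fin.last d)
      rw [Fin.val_last, ← hfV] at h2
      rw [← h2]
      have h0 : fV.map π ≠ 0 := hsep.ne_zero
      have h3 := leadingCoeff_ne_zero.mpr h0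
      rwa [leadingCoeff, hdeg] at h3
    rw [Ne, hπ0, not_lt] at h1
    exact le_antisymm (V.valuation_le_one _) h1
  have hθV : ∀ j, θ j ∈ V := by
    intro j
    by_contra hj
    rw [← V.valuation_le_one_iff, not_le] at hj
    have h1 := hroot j
    rw [Fin.sum_univ_castSucc] at h1
    have h2 : V.valuation (∑ i : Fin d, c i.castSucc *
        θ j ^ ((i.castSucc : Fin (d + 1)) : ℕ)) < V.valuation (θ j) ^ d := by
      apply Valuation.map_sum_lt
      · exact pow_ne_zero _ (zero_lt_one.trans hj).ne'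
      · intro i _
        rw [← haV, map_mul, map_pow]
        calc V.valuation (aV i.castSucc : C) * V.valuation (θ j) ^ ((i.castSucc : Fin (d + 1)) : ℕ)
            ≤ 1 * V.valuation (θ j) ^ ((i.castSucc : Fin (d + 1)) : ℕ) :=
              mul_le_mul_left (V.valuation_le_one _) _
          _ = V.valuation (θ j) ^ (i : ℕ) := by rw [one_mul]; rfl
          _ < V.valuation (θ j) ^ d := pow_lt_pow_right₀ hj i.2
    rw [add_eq_zero_iff_eq_neg] at h1
    rw [h1, Valuation.map_neg, ← haV, map_mul, map_pow, hlead, one_mul, Fin.val_last] at h2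
    exact lt_irrefl _ h2
  refine ⟨hc, hlead, hθV, ?_⟩
  intro i j hij
  refine le_antisymm ((V.valuation_le_one_iff _).2 (sub_mem (hθV i) (hθV j))) ?_
  by_contra hlt
  rw [not_le] at hlt
  let θV : Fin d → V := fun j => ⟨θ j, hθV j⟩
  have hev : ∀ j, fV.eval (θV j) = 0 := by
    intro j
    apply V.subtype_injective
    rw [eval_spec, map_sum, map_zero, ← hroot j]
    refine Finset.sum_congr rfl fun i _ => ?_
    rw [map_mul, map_pow, ← haV]
    rfl
  obtain ⟨f₁, hf₁⟩ := dvd_iff_isRoot.mpr (hev i)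
  have h1 : f₁.eval (θV j) = 0 := by
    have h2 := hev j
    rw [hf₁, eval_mul, eval_sub, eval_X, eval_C] at h2
    rcases mul_eq_zero.mp h2 with h | h
    · exfalso
      rw [sub_eq_zero] at h
      exact hij (hθ (congrArg Subtype.val h)).symm
    · exact h
  obtain ⟨f₂, hf₂⟩ := dvd_iff_isRoot.mpr h1
  have h3 : π (θV i) = π (θV j) := by
    rw [← sub_eq_zero, ← map_sub, hπ0]
    exact hlt
  have h4 : (X - Polynomial.C (π (θV i))) * (X - Polynomial.C (π (θV i))) ∣ fV.map π := by
    have h5 : fV.map π = (X - Polynomial.C (π (θV i))) * ((X - Polynomial.C (π (θV i))) *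
        f₂.map π) := by
      rw [hf₁, hf₂, Polynomial.map_mul, Polynomial.map_mul, Polynomial.map_sub,
        Polynomial.map_sub, map_X, map_C, map_C, h3]
    rw [h5, ← mul_assoc]
    exact Dvd.intro _ rfl
  exact not_isUnit_X_sub_C _ (hsep.squarefree _ h4)

section bad

variable {F k C : Type u} [Field F] [CharZero F] [Field k] [Algebra F k] [Field C] [Algebra k C]
  [Algebra F C] [IsScalarTower F k C] {T : k} {d m : ℕ}

theorem charZero_residue {κ : Subfield C} {V : ValuationSubring C} (hκV : ∀ c ∈ κ, c ∈ V)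
    (hFκ : ∀ c : F, algebraMap F C c ∈ κ) : CharZero (IsLocalRing.ResidueField V) := by
  let ι : F →+* V := (algebraMap F C).codRestrict V.toSubring (fun c => hκV _ (hFκ c))
  exact charZero_of_injective_ringHom ((IsLocalRing.residue V).comp ι).injective

/-- **The polynomial of bad values.** -/
theorem exists_bad (hk : ∀ x : k, ∃ b : F[X][X], b ≠ 0 ∧
    eval₂ (aeval T : F[X] →ₐ[F] k).toRingHom x b = 0) {w : Fin (m + 1) → k} (hw : w 0 ≠ 0)
    (hd : 2 ≤ d) : ∃ Δ : (MvPolynomial (Fin (d + 1) × Fin (m + 1)) F)[X], Δ ≠ 0 ∧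
    ∀ {κ : Subfield C} {V : ValuationSubring C} (_ : ∀ c ∈ κ, c ∈ V)
      (_ : ∀ c : F, algebraMap F C c ∈ κ) {t₀ : κ}
      (_ : V.valuation (algebraMap k C T - t₀) < 1) (a : Fin (d + 1) × Fin (m + 1) → F)
      (_ : eval₂ (algebraMap F C) (t₀ : C) (Δ.map (MvPolynomial.eval a)) ≠ 0)
      {θ : Fin d → C} (_ : Function.Injective θ)
      (_ : ∀ j, ∑ i : Fin (d + 1), algebraMap k C (∑ l, algebraMap F k (a (i, l)) * w l) *
        θ j ^ (i : ℕ) = 0),
      GoodAt V (fun i : Fin (d + 1) => algebraMap k C (∑ l, algebraMap F k (a (i, l)) * w l)) θ := by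
  classical
  obtain ⟨Δ₀, hΔ₀, G, hG⟩ := exists_dvd_phi hk (RR_genc_ne_zero (F := F) hw hd)
  choose b hb hb0 using hk
  let E : Finset k := Finset.univ.image w ∪ G.support.image fun s => G.coeff s
  let h : F[X] := ∏ x ∈ E, (b x).leadingCoeff
  have hh : h ≠ 0 := Finset.prod_ne_zero_iff.2 fun x _ => leadingCoeff_ne_zero.2 (hb x)
  refine ⟨h.map MvPolynomial.C * Δ₀, mul_ne_zero ?_ hΔ₀, ?_⟩
  · exact (Polynomial.map_ne_zero_iff (MvPolynomial.C_injective _ F)).2 hh
  intro κ V hκV hFκ t₀ hT a hbad θ hθ hroot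
  let φ : F →+* κ := (algebraMap F C).codRestrict κ.toSubring hFκ
  have hφC : (algebraMap κ C).comp φ = algebraMap F C := rfl
  have hcomp : (h.map (MvPolynomial.C : F →+* MvPolynomial (Fin (d + 1) × Fin (m + 1)) F)).map
      (MvPolynomial.eval a) = h := by
    rw [Polynomial.map_map]
    have h1 : (MvPolynomial.eval a).comp (MvPolynomial.C : F →+* _) = RingHom.id F :=
      RingHom.ext fun c => MvPolynomial.eval_C c
    rw [h1, Polynomial.map_id]
  rw [Polynomial.map_mul, hcomp, eval₂_mul] at hbad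
  have hev : ∀ q : F[X], eval₂ (algebraMap F C) (t₀ : C) q = (((q.map φ).eval t₀ : κ) : C) := by
    intro q
    rw [eval_map]
    change _ = (algebraMap κ C) (eval₂ φ t₀ q)
    rw [hom_eval₂]
    rfl
  have hval : ∀ q : F[X], algebraMap k C (aeval T q) = aeval (algebraMap k C T) (q.map φ) := by
    intro q
    rw [aeval_def, aeval_def, eval₂_map, hom_eval₂, hφC, ← IsScalarTower.algebraMap_eq]
  have hhx : ∀ x ∈ E, algebraMap k C x ∈ V := by
    intro x hx
    have h1 : eval₂ (algebraMap F C) (t₀ : C) (b x).leadingCoeff ≠ 0 := by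
      intro h0
      apply left_ne_zero_of_mul hbad
      simp only [h]
      rw [eval₂_finsetProd]
      exact Finset.prod_eq_zero hx h0
    have hinj : Function.Injective (mapRingHom φ) := Polynomial.map_injective _ φ.injective
    refine mem_of_rel hκV hT (b := (b x).map (mapRingHom φ)) ?_ ?_
    · rw [eval₂_map]
      have h2 := congrArg (algebraMap k C) (hb0 x)
      rw [hom_eval₂, map_zero] at h2
      rw [← h2]
      congr 1
      refine RingHom.ext fun q => ?_
      exact (hval q).symm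
    · rw [leadingCoeff_map_of_injective hinj]
      intro h0
      apply h1
      rw [hev]
      have h2 : ((b x).leadingCoeff.map φ).eval t₀ = 0 := h0
      rw [h2]
      rfl
  have haV : ∀ x, algebraMap F C (a x) ∈ V := fun x => hκV _ (hFκ _)
  have hcV : ∀ i : Fin (d + 1), algebraMap k C (∑ l, algebraMap F k (a (i, l)) * w l) ∈ V := by
    intro i
    rw [map_sum]
    refine sum_mem fun l _ => ?_
    rw [map_mul, ← IsScalarTower.algebraMap_apply F k C]
    exact mul_mem (haV _) (hhx _ (Finset.mem_union_left _ (Finset.mem_image_of_mem _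
      (Finset.mem_univ l))))
  have hGV : algebraMap k C (evk a G) ∈ V := by
    unfold evk
    rw [MvPolynomial.eval_eq, map_sum]
    refine sum_mem fun s hs => ?_
    rw [map_mul, map_prod]
    refine mul_mem (hhx _ (Finset.mem_union_right _ (Finset.mem_image_of_mem _ hs))) ?_
    refine prod_mem fun x _ => ?_
    rw [map_pow, ← IsScalarTower.algebraMap_apply F k C]
    exact pow_mem (haV _) _
  refine goodAt_of_RR (charZero_residue hκV hFκ) hd hcV ?_ hθ hroot
  -- the value of the resultant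
  have h1 : algebraMap k C (evk a (RR d (spec (genc w)))) =
      RR d (spec fun i : Fin (d + 1) => algebraMap k C (∑ l, algebraMap F k (a (i, l)) * w l)) := by
    rw [← RR_map, map_spec_genc, ← RR_map, spec_map]
  have h2 : V.valuation (algebraMap k C (evk a (phi T Δ₀))) = 1 := by
    rw [evk_phi, hval]
    refine val_aeval hκV hT ?_
    intro h0
    apply right_ne_zero_of_mul hbad
    rw [hev, h0]
    rfl
  rw [hG, map_mul, map_mul, map_mul, h1] at h2
  have h3 : V.valuation (RR d (spec fun i : Fin (d + 1) =>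
      algebraMap k C (∑ l, algebraMap F k (a (i, l)) * w l))) ≤ 1 := by
    have h4 : RR d (spec fun i : Fin (d + 1) =>
        algebraMap k C (∑ l, algebraMap F k (a (i, l)) * w l)) ∈ V := by
      have h5 := RR_map d (spec fun i : Fin (d + 1) => (⟨_, hcV i⟩ : V)) V.subtype
      rw [spec_map] at h5
      change RR d (spec fun i : Fin (d + 1) =>
        algebraMap k C (∑ l, algebraMap F k (a (i, l)) * w l)) = _ at h5
      rw [h5]
      exact (RR d (spec fun i : Fin (d + 1) => (⟨_, hcV i⟩ : V))).2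
    exact (V.valuation_le_one_iff _).2 h4
  have h4 : V.valuation (algebraMap k C (evk a G)) ≤ 1 := (V.valuation_le_one_iff _).2 hGV
  refine le_antisymm h3 ?_
  rw [← h2]
  exact mul_le_of_le_one_right' h4

omit [Algebra F C] [IsScalarTower F k C] in
/-- **The relation of the roots.** -/
theorem exists_rel_roots (hk : ∀ x : k, ∃ b : F[X][X], b ≠ 0 ∧
    eval₂ (aeval T : F[X] →ₐ[F] k).toRingHom x b = 0) {w : Fin (m + 1) → k} (hw : w 0 ≠ 0) :
    ∃ R : (MvPolynomial (Fin (d + 1) × Fin (m + 1)) F)[X][X], R ≠ 0 ∧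
    ∀ (a : Fin (d + 1) × Fin (m + 1) → F) {θ : C}
      (_ : ∑ i : Fin (d + 1), algebraMap k C (∑ l, algebraMap F k (a (i, l)) * w l) *
        θ ^ (i : ℕ) = 0),
      eval₂ ((algebraMap k C).comp (aeval T : F[X] →ₐ[F] k).toRingHom) θ
        (R.map (mapRingHom (MvPolynomial.eval a))) = 0 := by
  obtain ⟨R, hR, g, hg⟩ := exists_dvd_map_phi hk (spec_genc_ne_zero (F := F) (d := d) hw)
  refine ⟨R, hR, fun a θ hθ => ?_⟩
  have h1 : (R.map (mapRingHom (MvPolynomial.eval a))).map (aeval T : F[X] →ₐ[F] k).toRingHom =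
      (R.map (phi T)).map (evk a) := by
    rw [Polynomial.map_map, Polynomial.map_map]
    congr 1
    refine RingHom.ext fun Q => ?_
    exact (evk_phi T a Q).symm
  rw [← eval₂_map, h1, hg, Polynomial.map_mul, eval₂_mul, map_spec_genc]
  have h2 : eval₂ (algebraMap k C) θ
      (spec fun i : Fin (d + 1) => ∑ l, algebraMap F k (a (i, l)) * w l) = 0 := by
    rw [← hθ, ← eval_map, spec_map, eval_spec]
  rw [h2, zero_mul]

end bad

end Pool.Agent.RRW
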